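import Mathlib
import Pool.Agent.H23.PathSysA

set_option autoImplicit false

namespace Pool.Agent.Results.MP_11d8b4_co.Counter
open Pool.Agent.H23.PathSys

theorem result : ¬ ∀ (V : Type) [Fintype V] (G : SimpleGraph V), G.Connected →
    ∀ P : (u v : V) → G.Walk u v, IsSys P → Consistent P → (∃ w, Induces w P) →
      ∃ w', (∀ e ∈ G.edgeSet, 0 < w' e) ∧ Induces w' P := by
  intro h
  obtain ⟨w, h1, h2⟩ := h _ GG conn PP sys cons ⟨_, ind⟩
  exact notpos w h1 h2

end Pool.Agent.Results.MP_11d8b4_co.Counter
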